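import Pool.Agent.Run7.h747.BarE
import Pool.Agent.Run7.h747.BarN

/-!
# A barrier for commutative algebraic sieves that count cycles of a given length

Inclusion-exclusion and its algebraic refinements count the cycles of length `l` of a graph by
giving every vertex (and edge) a weight in a finite-dimensional commutative algebra `R`, computing
the sum over all closed walks of length `l` of the product of the weights, and applying a linear
functional. We show that, over any field of characteristic zero and for any weights on vertices
and edges, `R` must have dimension at least `n.choose (l / 2)` up to a factor polynomial in `n`,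
and at least `2 ^ n / (16 n ^ 2)` for Hamiltonian cycles, even if the answer has to be right
only for graphs of maximum degree four. The same holds, with other polynomial factors, if it has to
be right only for bipartite graphs of maximum degree four.
-/

namespace Pool.Agent.Results.MP_b2ebfc_lc.CommutativeSieveBarrier

open Run7.h747

open Classical in
/-- The sum, over all closed walks `w 0, w 1, ..., w (l - 1), w 0` of length `l` of `G`, of the
product of the weights `x (w i)` of the vertices and `y {w i, w (i + 1)}` of the edges of the
walk (with multiplicities). Here `finRotate l` maps `i` to `i + 1` and `l - 1` to `0`. -/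
noncomputable def closedWalkSum {n : ℕ} {R : Type*} [CommRing R] (l : ℕ) (x : Fin n → R)
    (y : Sym2 (Fin n) → R) (G : SimpleGraph (Fin n)) : R :=
  ∑ w ∈ Finset.univ.filter (fun w : Fin l → Fin n => ∀ i, G.Adj (w i) (w (finRotate l i))),
    ∏ i, x (w i) * y s(w i, w (finRotate l i))

/-- The functional `φ` reads off the number of cycles of length `l` of `G` (subgraphs of `G` that
are isomorphic to the cycle of length `l`) from the sum over the closed walks. -/
def CountsCycles {n : ℕ} {F R : Type*} [Field F] [CommRing R] [Algebra F R] (l : ℕ)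
    (φ : R →ₗ[F] F) (x : Fin n → R) (y : Sym2 (Fin n) → R) (G : SimpleGraph (Fin n)) : Prop :=
  φ (closedWalkSum l x y G) = (G.copyCount (SimpleGraph.cycleGraph l) : F)

/-- Every vertex has at most four neighbours. -/
def MaxDegreeFour {n : ℕ} (G : SimpleGraph (Fin n)) : Prop :=
  ∀ v, (G.neighborSet v).ncard ≤ 4

/-- The graph is bipartite. -/
def Bipartite {n : ℕ} (G : SimpleGraph (Fin n)) : Prop :=
  ∃ c : Fin n → Bool, ∀ u v, G.Adj u v → c u ≠ c v

theorem closedWalkSum_eq {n m : ℕ} {R : Type*} [CommRing R] (x : Fin n → R)
    (y : Sym2 (Fin n) → R) (G : SimpleGraph (Fin n)) :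
    closedWalkSum (m + 3) x y G = wsum m x y G := by
  have h : ∀ i : Fin (m + 3), finRotate (m + 3) i = i + 1 := fun i => finRotate_apply i
  unfold closedWalkSum wsum wt
  apply Finset.sum_congr
  · ext w
    simp only [Finset.mem_filter, Finset.mem_univ, true_and, h]
  · intro w _
    simp only [h]

/-- If a finite-dimensional commutative algebra `R` over a field of characteristic zero, weights
of the vertices and edges in `R` and a linear functional compute the number of cycles of length
`l` from the closed walks of length `l`, for all graphs of maximum degree at most four, then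
`n.choose (l / 2) ≤ n ^ 8 * dim R`, and `2 ^ n ≤ 16 * n ^ 2 * dim R` if `l = n`. If `l` is even and
this is required only for bipartite graphs of maximum degree at most four, then
`n.choose (l / 2) ≤ n ^ 20 * dim R`, and `2 ^ n ≤ 64 * n ^ 4 * dim R` if `l = n`. -/
theorem result {n l : ℕ} (hl3 : 3 ≤ l) (hln : l ≤ n) {F : Type*} [Field F] [CharZero F]
    {R : Type*} [CommRing R] [Algebra F R] [Module.Finite F R] (φ : R →ₗ[F] F)
    (x : Fin n → R) (y : Sym2 (Fin n) → R) :
    ((∀ G : SimpleGraph (Fin n), MaxDegreeFour G → CountsCycles l φ x y G) →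
      n.choose (l / 2) ≤ n ^ 8 * Module.finrank F R ∧
      (l = n → 2 ^ n ≤ 16 * n ^ 2 * Module.finrank F R)) ∧
    ((∀ G : SimpleGraph (Fin n), MaxDegreeFour G → Bipartite G → CountsCycles l φ x y G) →
      Even l →
      n.choose (l / 2) ≤ n ^ 20 * Module.finrank F R ∧
      (l = n → 2 ^ n ≤ 64 * n ^ 4 * Module.finrank F R)) := by
  obtain ⟨m, rfl⟩ : ∃ m, l = m + 3 := ⟨l - 3, by omega⟩
  constructor
  · intro H
    have H' : ∀ G : SimpleGraph (Fin n), Deg4 G → φ (wsum m x y G) =
        (G.copyCount (SimpleGraph.cycleGraph (m + 3)) : F) := by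
      intro G hG
      rw [← closedWalkSum_eq]
      exact H G hG
    have hb := bar2 (q := m / 4) (s := 3 + m % 4) (N := (n - (3 + m % 4)) / 2) (n := n)
      (m := m) (by omega) (by omega) (by omega) (by omega) φ x y H'
    constructor
    · exact (num2 (q := m / 4) (s := 3 + m % 4) (by omega) (by omega) (by omega) hln).trans
        (Nat.mul_le_mul_left _ hb)
    · intro hn
      exact (num2' (q := m / 4) (s := 3 + m % 4) (by omega) (by omega) (by omega)).trans
        (Nat.mul_le_mul_left _ hb)
  · intro H hev
    have hev2 : (m + 3) % 2 = 0 := Nat.even_iff.1 hev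
    have H' : ∀ G : SimpleGraph (Fin n), Deg4 G → Bip G → φ (wsum m x y G) =
        (G.copyCount (SimpleGraph.cycleGraph (m + 3)) : F) := by
      intro G hG hG2
      rw [← closedWalkSum_eq]
      exact H G hG hG2
    by_cases h8 : 8 ≤ m + 3
    · obtain ⟨k, rfl⟩ : ∃ k, m = k + 5 := ⟨m - 5, by omega⟩
      have hb := bar4 (q := k / 8) (s := 8 + k % 8) (N := (n - (8 + k % 8)) / 4) (n := n)
        (m := k + 5) (by omega) (by omega) (by omega) (by omega) (by omega) φ x y H'
      constructor
      · exact (num4 (q := k / 8) (s := 8 + k % 8) (by omega) (by omega) (by omega) hln).trans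
          (Nat.mul_le_mul_left _ hb)
      · intro hn
        exact (num4' (q := k / 8) (s := 8 + k % 8) (by omega) (by omega) (by omega)).trans
          (Nat.mul_le_mul_left _ hb)
    · have hp := bar_pos hln hev2 φ x y H'
      constructor
      · calc n.choose ((m + 3) / 2) ≤ n ^ ((m + 3) / 2) := Nat.choose_le_pow _ _
          _ ≤ n ^ 20 := Nat.pow_le_pow_right (by omega) (by omega)
          _ = n ^ 20 * 1 := (mul_one _).symm
          _ ≤ n ^ 20 * Module.finrank F R := Nat.mul_le_mul_left _ hp
      · intro hn
        have h1 : 2 ^ n ≤ 2 ^ 7 := Nat.pow_le_pow_right (by norm_num) (by omega)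
        have h2 : 3 ^ 4 ≤ n ^ 4 := Nat.pow_le_pow_left (by omega) 4
        calc 2 ^ n ≤ 64 * n ^ 4 * 1 := by omega
          _ ≤ 64 * n ^ 4 * Module.finrank F R := Nat.mul_le_mul_left _ hp

end Pool.Agent.Results.MP_b2ebfc_lc.CommutativeSieveBarrier
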