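import Pool.Agent.Run7.h747.Params
import Pool.Agent.Run7.h747.Lnc

/-!
# Counting cycles of a given length on graphs of linear neighbourhood complexity

One deterministic word-RAM program computes, for every graph `G` on `n` vertices and every `l`
with `3 ≤ l ≤ n`, the number of cycles of length `l` of `G`, and for every `q` there is a `b < 2`
such that it takes time `b^n poly(n)` on all graphs in which every set `A` of vertices has at most
`q (|A| + 1)` different traces `N(v) ∩ A`.
-/

namespace Pool.Agent.Results.MP_b2ebfc_lc.LinearTraces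

open Pool.Agent.H588R2 Pool.Agent.TH687.HL Run7.h747

open Classical in
/-- Initial configuration of the word RAM. Register `0` holds the number `n` of vertices, register
`1` holds `l`, the other registers are zero. The memory holds the adjacency matrix of `G` row by
row (cell `u * n + v` is `1` if `u` and `v` are adjacent, else `0`), followed by zeros. -/
noncomputable def inputConfig {n : ℕ} (G : SimpleGraph (Fin n)) (l : ℕ) : Config where
  pc := 0
  st :=
    { reg := fun i => if i = 0 then n else if i = 1 then l else 0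
      mem := fun x =>
        if h : x / n < n ∧ x % n < n then
          (if G.Adj ⟨x / n, h.1⟩ ⟨x % n, h.2⟩ then 1 else 0)
        else 0 }

open Classical in
/-- The program `P`, started on the input `G`, `l`, with words of `c (n + 1) (⌊log₂ (n + 1)⌋ + 1)`
bits, halts after at most `T` steps, and its output is the number of subgraphs of `G` that are
cycles of length `l`. -/
def CountsCycles (P : List Instr) (c : ℕ) {n : ℕ} (G : SimpleGraph (Fin n)) (l : ℕ) (T : ℝ) :
    Prop :=
  HaltsWithin (c * ((n + 1) * (Nat.log 2 (n + 1) + 1))) P (inputConfig G l) T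
    (G.copyCount (SimpleGraph.cycleGraph l))

open Classical in
/-- Linear neighbourhood complexity: for every set `A` of vertices, there are at most
`q (|A| + 1)` different sets `{x ∈ A | v adjacent to x}`, where `v` runs over all vertices. -/
def LinearTraces {n : ℕ} (G : SimpleGraph (Fin n)) (q : ℕ) : Prop :=
  ∀ A : Finset (Fin n),
    (Finset.univ.image (fun v => A.filter (fun x => G.Adj v x))).card ≤ q * (A.card + 1)

theorem counts {n l GB : ℕ} (G : SimpleGraph (Fin n)) (hl3 : 3 ≤ l) (hln : l ≤ n)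
    (hGB : ∀ mate, Greedy G mate → ∀ sv av, sv < av → ∀ (j : ℕ) (w : Fin n)
      (S : Finset (Finset (Fin n))),
      (∀ X ∈ S, Cc G sv av mate j w X ≠ 0) → S.card ≤ GB)
    (hG1 : 1 ≤ GB) (T : ℝ) (hT : 5000 * (n : ℝ) ^ 6 * GB ≤ T) :
    CountsCycles (main.comp.compile 0) 8 G l T := by
  classical
  refine halts_of G hl3 hln (inputConfig G l) rfl rfl rfl ?_ ?_ hGB hG1 T hT
  · intro u v
    have h1 : ((u : ℕ) * n + v) / n = u := by
      rw [Nat.mul_comm, Nat.mul_add_div (by omega), Nat.div_eq_of_lt v.2, Nat.add_zero]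
    have h2 : ((u : ℕ) * n + v) % n = v := by
      rw [Nat.mul_comm, Nat.mul_add_mod, Nat.mod_eq_of_lt v.2]
    simp only [inputConfig, h1, h2]
    rw [dif_pos ⟨u.2, v.2⟩]
  · intro a ha
    have h1 : ¬ a / n < n := by
      rw [Nat.div_lt_iff_lt_mul (by omega)]
      omega
    simp only [inputConfig]
    rw [dif_neg (fun h => h1 h.1)]

theorem near {d : ℕ} {δ : ℝ} (hδ : 0 < δ) : ∃ b : ℝ, 0 < b ∧ b < 2 ∧
      ∀ (n l : ℕ) (G : SimpleGraph (Fin n)), 3 ≤ l → l ≤ n →
        ∀ M : Finset (Fin n × Fin n), Pairs G d M → δ * n ≤ M.card →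
        CountsCycles (main.comp.compile 0) 8 G l (50000 * b ^ n * ((n : ℝ) + 1) ^ 6) := by
  classical
  obtain ⟨b, hb0, hb2, hb⟩ := greedy_count d hδ
  refine ⟨max b 1, by positivity, max_lt hb2 (by norm_num), ?_⟩
  intro n l G hl3 hln M hM hM1
  have h1b : (1 : ℝ) ≤ (max b 1) ^ n := one_le_pow₀ (le_max_right _ _)
  have hbb : b ^ n ≤ (max b 1) ^ n := pow_le_pow_left₀ hb0.le (le_max_left _ _) n
  refine counts (GB := ⌊8 * b ^ n⌋₊ + 1) G hl3 hln ?_ (by omega) _ ?_
  · intro mate hg sv av hsa j w S hS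
    have := hb n G M hM hM1 mate hg sv av hsa j w S hS
    have h2 := Nat.le_floor this
    omega
  · push_cast
    have h1 : (n : ℝ) ^ 6 ≤ ((n : ℝ) + 1) ^ 6 := by
      apply pow_le_pow_left₀ (by positivity); linarith
    have h2 : (⌊8 * b ^ n⌋₊ : ℝ) ≤ 8 * b ^ n := Nat.floor_le (by positivity)
    have h3 : (⌊8 * b ^ n⌋₊ : ℝ) + 1 ≤ 9 * (max b 1) ^ n := by linarith
    have h4 : (0 : ℝ) ≤ (n : ℝ) ^ 6 := by positivity
    have h5 : (0 : ℝ) < ((n : ℝ) + 1) ^ 6 := by positivity
    calc 5000 * (n : ℝ) ^ 6 * ((⌊8 * b ^ n⌋₊ : ℝ) + 1)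
        ≤ 5000 * ((n : ℝ) + 1) ^ 6 * (9 * (max b 1) ^ n) := by
          apply mul_le_mul _ h3 (by positivity) (by positivity)
          linarith
      _ ≤ 50000 * (max b 1) ^ n * ((n : ℝ) + 1) ^ 6 := by
          have : 0 ≤ (max b 1) ^ n * ((n : ℝ) + 1) ^ 6 := by positivity
          nlinarith

/-- There is a word-RAM program `P` that counts the cycles of length `l` in time `2^n poly(n)` on
all graphs, and, for all `q`, in time `b^n poly(n)` with `b < 2` on all graphs of linear
neighbourhood complexity with constant `q`. -/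
theorem result : ∃ (P : List Instr) (c k : ℕ) (C : ℝ),
    (∀ (n l : ℕ) (G : SimpleGraph (Fin n)), 3 ≤ l → l ≤ n →
      CountsCycles P c G l (C * 2 ^ n * ((n : ℝ) + 1) ^ k)) ∧
    ∀ q : ℕ, ∃ b : ℝ, 0 < b ∧ b < 2 ∧
      ∀ (n l : ℕ) (G : SimpleGraph (Fin n)), 3 ≤ l → l ≤ n → LinearTraces G q →
        CountsCycles P c G l (C * b ^ n * ((n : ℝ) + 1) ^ k) := by
  classical
  refine ⟨main.comp.compile 0, 8, 6, 50000, ?_, ?_⟩
  · intro n l G hl3 hln
    refine counts (GB := 2 ^ n) G hl3 hln ?_ (Nat.one_le_two_pow) _ ?_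
    · intro _ _ _ _ _ _ _ S _
      refine (Finset.card_le_univ _).trans ?_
      rw [Fintype.card_finset, Fintype.card_fin]
    · push_cast
      have h1 : (n : ℝ) ^ 6 ≤ ((n : ℝ) + 1) ^ 6 := by
        apply pow_le_pow_left₀ (by positivity); linarith
      have h2 : (0 : ℝ) < 2 ^ n := by positivity
      nlinarith [mul_le_mul_of_nonneg_right h1 h2.le, pow_pos (show (0 : ℝ) < (n : ℝ) + 1 by
        positivity) 6, mul_pos h2 (pow_pos (show (0 : ℝ) < (n : ℝ) + 1 by positivity) 6)]
  · intro q
    obtain ⟨d, hd⟩ := pairs_of_traces q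
    obtain ⟨b, h0, h2, hb⟩ := near (d := d) (δ := 1 / 4) (by norm_num)
    refine ⟨b, h0, h2, ?_⟩
    intro n l G hl3 hln hG
    obtain ⟨M, hM, hc⟩ := hd n (by omega) G hG
    refine hb n l G hl3 hln M hM ?_
    have : (n : ℝ) ≤ 4 * M.card := by exact_mod_cast hc
    linarith

end Pool.Agent.Results.MP_b2ebfc_lc.LinearTraces
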